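import Pool.Agent.Q71.GV.Main

/-!
# Graph volumes are not controlled by the volumes of disc slices
-/

namespace Pool.Agent.Results.MP_4af734_an.UnboundedGraphs

open MeasureTheory Set Metric Q71.GV
open scoped ENNReal

/-- **The negated form of Q1**, with `X = ℙ²`, `n = 2`, `k = 1`, every `r` and holomorphic maps
`f = [F]`. -/
theorem result : ∀ r : ℝ, 0 < r → r < 1 → ∃ R l : ℝ, 0 < R ∧ 0 < l ∧
    ∀ A : ℝ, ∃ F : (Fin (1 + 1) → ℂ) → E3, Differentiable ℂ F ∧ (∀ z, F z ≠ 0) ∧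
      InClass 1 1 r R F ∧
      (∀ z ∈ polydisc 1, graphVol (slice (a := 1) (b := 1) F z) (polydisc 1)
        ≤ ENNReal.ofReal l) ∧
      ENNReal.ofReal A < graphVol F (polydisc (1 + 1)) := by
  intro r hr0 hr1
  set T : ℝ≥0∞ := TT r * ENNReal.ofReal Real.pi + (ENNReal.ofReal Real.pi +
    ENNReal.ofReal Real.pi) with hT
  have hTt : T ≠ ⊤ := by
    have := TT_ne_top r
    rw [hT]
    finiteness
  have hTR : T ≤ ENNReal.ofReal (T.toReal + 1) := by
    rw [ENNReal.ofReal_add ENNReal.toReal_nonneg zero_le_one, ENNReal.ofReal_toReal hTt]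
    exact le_self_add
  refine ⟨T.toReal + 1, T.toReal + 1, by positivity, by positivity, fun A => ?_⟩
  obtain ⟨N₀, hN₀⟩ := exists_nat_gt (1000 * A)
  set N : ℕ := max N₀ 2 with hN
  have hN2 : 2 ≤ N := le_max_right _ _
  have hNA : 1000 * A < N := lt_of_lt_of_le hN₀ (by exact_mod_cast le_max_left _ _)
  have hN0 : (0 : ℝ) < N := by exact_mod_cast (by omega : 0 < N)
  have hN1 : (1 : ℝ) ≤ N := by exact_mod_cast (by omega : 1 ≤ N)
  set κ : ℝ := 1 / (N : ℝ) ^ 2 with hκ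
  have hκ0 : 0 < κ := by positivity
  have hκN : κ * (N : ℝ) ^ 2 = 1 := by rw [hκ]; field_simp
  have hκ1 : κ ≤ 1 := by
    rw [hκ, div_le_one (by positivity)]
    exact one_le_pow₀ hN1
  have hρ : 0 < r ^ 2 / 4 := by positivity
  have hρ1 : r ^ 2 / 4 ≤ 1 / 4 := by nlinarith
  refine ⟨FF κ (r ^ 2 / 4) N, FF_diff _ _ _, FF_ne _ _ hκ0 hρ N, ⟨?_, fun z _ => ?_⟩,
    fun z _ => ?_, ?_⟩
  · exact (vol_shell hN2 hκN hκ0 hr0 hr1).trans (le_trans (by rw [hT]; exact le_self_add) hTR)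
  · refine (vol_slice hκ0 hρ z (shell 1 r) sdiff_subset).trans (le_trans ?_ hTR)
    rw [hT]
    exact le_add_self
  · refine (vol_slice hκ0 hρ z (polydisc 1) subset_rfl).trans (le_trans ?_ hTR)
    rw [hT]
    exact le_add_self
  · refine lt_of_lt_of_le ?_ (vol_big hN2 hκ0 hκ1 hρ hρ1)
    rw [ENNReal.ofReal_lt_ofReal_iff (by positivity)]
    linarith

end Pool.Agent.Results.MP_4af734_an.UnboundedGraphs
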